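import Pool.Agent.W516.MTZ.Main
import Pool.Agent.W906.MTZ.TOR

/-!
# The smallest torsor over `ℚ` which contains the comparison isomorphism of mixed Tate motives

For a mixed Tate motive over `ℤ` the comparison isomorphism lies in no proper subtorsor over `ℚ` of
the torsor of motivic periods if and only if the odd zeta values which occur in it are irrational;
the period conjecture holds if and only if, in addition, its Zariski closure is a torsor.
-/

set_option autoImplicit false

namespace Pool.Agent.Results.MP_e54452_nt.OddZetaTorsor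

open Pool.Agent.W516.MTZ

theorem result (m X : Type) [Fintype m] [DecidableEq m] [Fintype X] [DecidableEq X]
    (M : Motive m X) (p : (Matrix m m ℂ)ˣ) (hp : p ∈ M.gp)
    (hdeg : ∀ x, Odd (M.deg x) ∧ 3 ≤ M.deg x) (hinj : Function.Injective M.deg)
    (hpi : (p : Matrix m m ℂ) M.t M.t = 2 * Real.pi * Complex.I)
    (hzeta : ∀ x, (p : Matrix m m ℂ) M.o (M.s x) = riemannZeta (M.deg x)) :
    (NoSubtorsor M p ↔ ∀ (x : X) (q : ℚ), riemannZeta (M.deg x) ≠ q) ∧
    (PeriodConjecture M p ↔
      IsTorsor (clos p) ∧ ∀ (x : X) (q : ℚ), riemannZeta (M.deg x) ≠ q) :=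
  main_zeta (Pool.Agent.W906.MTZ.T_TOR Pool.Agent.W804.MTZ.T_FIT) hp hdeg hinj hpi hzeta

end Pool.Agent.Results.MP_e54452_nt.OddZetaTorsor
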